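import Pool.Agent.Helper43.RS.Spec
import Pool.Agent.Helper87.KrullDim

/-! # Module CX -/

set_option autoImplicit false

namespace Pool.Agent.Helper43.RS

open MvPolynomial

section dim

variable {R : Type} [CommRing R] [IsDomain R] [Algebra ℂ R] [Algebra.FiniteType ℂ R]

/-- there is no prime strictly between `0` and `P` -/
theorem CX_no_prime (P : Ideal R) [P.IsPrime] (hdim : ringKrullDim R ≤ ringKrullDim (R ⧸ P) + 1)
    (Q : Ideal R) [Q.IsPrime] (hQ : Q ≠ ⊥) (hQP : Q ≤ P) : Q = P := by
  by_contra hne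
  obtain ⟨s, g, hg, hint⟩ := exists_integral_inj_algHom_of_fg ℂ (R ⧸ P)
  have h0 : ringKrullDim (R ⧸ P) = s := Pool.Agent.Helper87.KrullDim.ringKrullDim_of_noether g hg hint
  obtain ⟨r, hr, hr0⟩ := Submodule.exists_mem_ne_zero_of_ne_bot hQ
  have h1 : ringKrullDim (R ⧸ Q) + 1 ≤ ringKrullDim R :=
    ringKrullDim_succ_le_of_surjective (Ideal.Quotient.mk Q) Ideal.Quotient.mk_surjective
      (mem_nonZeroDivisors_of_ne_zero hr0) (Ideal.Quotient.eq_zero_iff_mem.mpr hr)
  obtain ⟨t, htP, htQ⟩ : ∃ t ∈ P, t ∉ Q := by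
    by_contra hcon
    push Not at hcon
    exact hne (le_antisymm hQP hcon)
  have h2 : ringKrullDim (R ⧸ P) + 1 ≤ ringKrullDim (R ⧸ Q) := by
    apply ringKrullDim_succ_le_of_surjective (Ideal.Quotient.factor hQP)
      (Ideal.Quotient.factor_surjective hQP) (r := Ideal.Quotient.mk Q t)
    · apply mem_nonZeroDivisors_of_ne_zero
      intro h
      exact htQ (Ideal.Quotient.eq_zero_iff_mem.mp h)
    · rw [Ideal.Quotient.factor_mk]
      exact Ideal.Quotient.eq_zero_iff_mem.mpr htP
  have h3 : ringKrullDim (R ⧸ P) + 1 + 1 ≤ ringKrullDim (R ⧸ P) + 1 :=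
    ((add_le_add_left h2 1).trans h1).trans hdim
  rw [h0] at h3
  have h4 : (((s + 1 + 1 : ℕ) : ℕ∞) : WithBot ℕ∞) ≤ (((s + 1 : ℕ) : ℕ∞) : WithBot ℕ∞) := by
    push_cast
    exact h3
  have h5 : s + 1 + 1 ≤ s + 1 := by exact_mod_cast h4
  omega

/-- the local ring at `P` is a valuation ring -/
theorem CX_val [IsIntegrallyClosed R] (P : Ideal R) [P.IsPrime]
    (hdim : ringKrullDim R ≤ ringKrullDim (R ⧸ P) + 1) (a b : R) :
    ∃ c s : R, s ∉ P ∧ (a * c = s * b ∨ b * c = s * a) := by
  have hN : IsNoetherianRing R := Algebra.FiniteType.isNoetherianRing ℂ R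
  have hle : P.primeCompl ≤ nonZeroDivisors R := P.primeCompl_le_nonZeroDivisors
  have hN' : IsNoetherianRing (Localization.AtPrime P) :=
    IsLocalization.isNoetherianRing P.primeCompl _ hN
  have hD' : IsDomain (Localization.AtPrime P) := IsLocalization.isDomain_localization hle
  have hI' : IsIntegrallyClosed (Localization.AtPrime P) :=
    isIntegrallyClosed_of_isLocalization (Localization.AtPrime P) P.primeCompl hle
  have hV : ValuationRing (Localization.AtPrime P) := by
    have hT : ValuationRing (Localization.AtPrime P) ↔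
        (IsIntegrallyClosed (Localization.AtPrime P) ∧ ∀ Q : Ideal (Localization.AtPrime P),
          Q ≠ ⊥ → Q.IsPrime → Q = IsLocalRing.maximalIdeal (Localization.AtPrime P)) :=
      (tfae_of_isNoetherianRing_of_isLocalRing_of_isDomain (Localization.AtPrime P)).out 1 3
    refine hT.mpr ⟨hI', ?_⟩
    intro Q' hQ' hQ'p
    have hdisj := (IsLocalization.isPrime_iff_isPrime_disjoint P.primeCompl
      (Localization.AtPrime P) Q').mp hQ'p
    have h1 : Q'.comap (algebraMap R (Localization.AtPrime P)) ≤ P := by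
      intro r hr
      by_contra hrP
      exact Set.disjoint_left.mp hdisj.2 hrP hr
    have hmc : (Q'.comap (algebraMap R (Localization.AtPrime P))).map
        (algebraMap R (Localization.AtPrime P)) = Q' :=
      IsLocalization.map_under P.primeCompl (Localization.AtPrime P) Q'
    have hprime : (Q'.comap (algebraMap R (Localization.AtPrime P))).IsPrime := hdisj.1
    have h2 : Q'.comap (algebraMap R (Localization.AtPrime P)) ≠ ⊥ := by
      intro h
      apply hQ'
      rw [← hmc, h, Ideal.map_bot]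
    have h3 := CX_no_prime P hdim _ h2 h1
    rw [← hmc, h3]
    exact Localization.AtPrime.map_eq_maximalIdeal
  obtain ⟨c, hc⟩ := ValuationRing.cond (algebraMap R (Localization.AtPrime P) a)
    (algebraMap R (Localization.AtPrime P) b)
  obtain ⟨⟨c', s⟩, hcs⟩ := IsLocalization.surj P.primeCompl c
  have hinj : Function.Injective (algebraMap R (Localization.AtPrime P)) :=
    IsLocalization.injective _ hle
  refine ⟨c', s, s.2, ?_⟩
  rcases hc with hc | hc
  · left
    apply hinj
    rw [map_mul, map_mul, ← hcs, ← hc]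
    ring
  · right
    apply hinj
    rw [map_mul, map_mul, ← hcs, ← hc]
    ring

end dim

section frac

variable {R : Type} [CommRing R] [IsDomain R] (P : Ideal R)

/-- the local ring at `P` inside the fraction field -/
def CX_O (z : FractionRing R) : Prop :=
  ∃ a b : R, b ∉ P ∧ z * algebraMap R (FractionRing R) b = algebraMap R (FractionRing R) a

/-- its maximal ideal -/
def CX_m (z : FractionRing R) : Prop :=
  ∃ a b : R, a ∈ P ∧ b ∉ P ∧
    z * algebraMap R (FractionRing R) b = algebraMap R (FractionRing R) a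

variable {P}

theorem CX_O_mul (hP : P.IsPrime) {z z' : FractionRing R} (h : CX_O P z) (h' : CX_O P z') :
    CX_O P (z * z') := by
  obtain ⟨a, b, hb, e⟩ := h
  obtain ⟨a', b', hb', e'⟩ := h'
  refine ⟨a * a', b * b', fun hh => (hP.mem_or_mem hh).elim hb hb', ?_⟩
  rw [map_mul, map_mul, ← e, ← e']
  ring

theorem CX_m_add (hP : P.IsPrime) {z z' : FractionRing R} (h : CX_m P z) (h' : CX_m P z') :
    CX_m P (z + z') := by
  obtain ⟨a, b, ha, hb, e⟩ := h
  obtain ⟨a', b', ha', hb', e'⟩ := h'
  refine ⟨a * b' + a' * b, b * b', ?_, fun hh => (hP.mem_or_mem hh).elim hb hb', ?_⟩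
  · exact P.add_mem (P.mul_mem_right _ ha) (P.mul_mem_right _ ha')
  · rw [map_mul, map_add, map_mul, map_mul, ← e, ← e']
    ring

theorem CX_m_mul {z : FractionRing R} (h : CX_m P z) (r : R) :
    CX_m P (z * algebraMap R (FractionRing R) r) := by
  obtain ⟨a, b, ha, hb, e⟩ := h
  refine ⟨a * r, b, P.mul_mem_right _ ha, hb, ?_⟩
  rw [map_mul, ← e]
  ring

theorem CX_m_zero (hP : P.IsPrime) : CX_m P (0 : FractionRing R) := by
  refine ⟨0, 1, P.zero_mem, ?_, by simp⟩
  exact fun h => hP.ne_top ((Ideal.eq_top_iff_one P).mpr h)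

theorem CX_m_sum (hP : P.IsPrime) {ι : Type} (s : Finset ι) (f : ι → FractionRing R)
    (h : ∀ i ∈ s, CX_m P (f i)) : CX_m P (∑ i ∈ s, f i) := by
  classical
  induction s using Finset.induction_on with
  | empty => rw [Finset.sum_empty]; exact CX_m_zero hP
  | insert a s ha ih =>
    rw [Finset.sum_insert ha]
    exact CX_m_add hP (h a (Finset.mem_insert_self a s))
      (ih fun i hi => h i (Finset.mem_insert_of_mem hi))

theorem CX_m_alg (hP : P.IsPrime) {r : R} (h : CX_m P (algebraMap R (FractionRing R) r)) :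
    r ∈ P := by
  obtain ⟨a, b, ha, hb, e⟩ := h
  rw [← map_mul] at e
  have h1 := IsFractionRing.injective R (FractionRing R) e
  have h2 : r * b ∈ P := by rw [h1]; exact ha
  exact (hP.mem_or_mem h2).resolve_right hb

theorem CX_m_neg {z : FractionRing R} (h : CX_m P z) : CX_m P (-z) := by
  obtain ⟨a, b, ha, hb, e⟩ := h
  refine ⟨-a, b, P.neg_mem ha, hb, ?_⟩
  rw [map_neg, ← e]
  ring

/-- in a finite family of nonzero elements one divides all the others -/
theorem CX_min (hP : P.IsPrime)
    (hval : ∀ a b : R, ∃ c s : R, s ∉ P ∧ (a * c = s * b ∨ b * c = s * a)) {ι : Type}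
    (s : Finset ι) (hs : s.Nonempty) (f : ι → FractionRing R) (hf : ∀ i ∈ s, f i ≠ 0) :
    ∃ i ∈ s, ∀ j ∈ s, CX_O P (f j / f i) := by
  classical
  have hone : CX_O P (1 : FractionRing R) :=
    ⟨1, 1, fun h => hP.ne_top ((Ideal.eq_top_iff_one P).mpr h), by simp⟩
  have hV : ∀ z : FractionRing R, z ≠ 0 → CX_O P z ∨ CX_O P z⁻¹ := by
    intro z hz
    obtain ⟨a, b, hb, rfl⟩ := IsFractionRing.div_surjective (A := R) z
    have hb0 : algebraMap R (FractionRing R) b ≠ 0 := by
      intro h
      apply hz
      rw [h, div_zero]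
    have ha0 : algebraMap R (FractionRing R) a ≠ 0 := by
      intro h
      apply hz
      rw [h, zero_div]
    obtain ⟨c, t, ht, h | h⟩ := hval a b
    · right
      refine ⟨c, t, ht, ?_⟩
      have h1 := congrArg (algebraMap R (FractionRing R)) h
      rw [map_mul, map_mul] at h1
      rw [inv_div]
      field_simp
      linear_combination -h1
    · left
      refine ⟨c, t, ht, ?_⟩
      have h1 := congrArg (algebraMap R (FractionRing R)) h
      rw [map_mul, map_mul] at h1
      field_simp
      linear_combination -h1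
  induction hs using Finset.Nonempty.cons_induction with
  | singleton a =>
    refine ⟨a, Finset.mem_singleton_self a, ?_⟩
    intro j hj
    rw [Finset.mem_singleton.mp hj, div_self (hf a (Finset.mem_singleton_self a))]
    exact hone
  | cons a s ha hs ih =>
    obtain ⟨i, hi, hmin⟩ := ih fun j hj => hf j (Finset.mem_cons_of_mem hj)
    have ha0 : f a ≠ 0 := hf a (Finset.mem_cons_self a s)
    have hi0 : f i ≠ 0 := hf i (Finset.mem_cons_of_mem hi)
    rcases hV (f a / f i) (div_ne_zero ha0 hi0) with h | h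
    · refine ⟨i, Finset.mem_cons_of_mem hi, ?_⟩
      intro j hj
      rcases Finset.mem_cons.mp hj with rfl | hj
      · exact h
      · exact hmin j hj
    · refine ⟨a, Finset.mem_cons_self a s, ?_⟩
      rw [inv_div] at h
      intro j hj
      rcases Finset.mem_cons.mp hj with rfl | hj
      · rw [div_self ha0]; exact hone
      · have h2 := CX_O_mul hP (hmin j hj) h
        have h3 : f j / f i * (f i / f a) = f j / f a := by
          field_simp
        rw [h3] at h2
        exact h2

end frac

section act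

variable {B : Type} [Group B] {R : Type} [CommRing R] [IsDomain R] [Algebra ℂ R]
  (ρ : B →* (R ≃ₐ[ℂ] R))

/-- the action on fractions -/
noncomputable def CX_σ (b : B) : FractionRing R →ₐ[ℂ] FractionRing R :=
  IsFractionRing.liftAlgHom
    (g := (IsScalarTower.toAlgHom ℂ R (FractionRing R)).comp (ρ b).toAlgHom)
    ((IsFractionRing.injective R (FractionRing R)).comp (ρ b).injective)

theorem CX_σ_alg (b : B) (r : R) : CX_σ ρ b (algebraMap R (FractionRing R) r) =
    algebraMap R (FractionRing R) (ρ b r) := by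
  unfold CX_σ
  rw [IsFractionRing.liftAlgHom_apply, IsFractionRing.lift_algebraMap]
  rfl

theorem CX_inv_iff {p q : R} (hq : q ≠ 0) :
    (∀ b, CX_σ ρ b (algebraMap R (FractionRing R) p / algebraMap R (FractionRing R) q) =
      algebraMap R (FractionRing R) p / algebraMap R (FractionRing R) q) ↔ RatInv ρ p q := by
  have hq' : algebraMap R (FractionRing R) q ≠ 0 := by
    rw [Ne, FaithfulSMul.algebraMap_eq_zero_iff]; exact hq
  have hρq : ∀ b, algebraMap R (FractionRing R) (ρ b q) ≠ 0 := by
    intro b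
    rw [Ne, FaithfulSMul.algebraMap_eq_zero_iff]
    exact (map_ne_zero_iff _ (ρ b).injective).mpr hq
  unfold RatInv
  simp only [map_div₀, CX_σ_alg]
  constructor
  · intro h
    refine ⟨hq, fun b => ?_⟩
    have h1 := h b
    rw [div_eq_div_iff (hρq b) hq', ← map_mul, ← map_mul] at h1
    exact IsFractionRing.injective R (FractionRing R) h1
  · rintro ⟨-, h⟩ b
    rw [div_eq_div_iff (hρq b) hq', ← map_mul, ← map_mul, h b]

theorem CX_const (x : R →ₐ[ℂ] ℂ) (P : Ideal R) (hPx : ∀ r, r ∈ P ↔ ∀ b, x (ρ b r) = 0)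
    {p q : R} (h : RatInv ρ p q) (hq : q ∉ P) : ∃ c : ℂ, p - c • q ∈ P := by
  obtain ⟨hq0, hinv⟩ := h
  obtain ⟨b₀, hb₀⟩ : ∃ b₀, x (ρ b₀ q) ≠ 0 := by
    by_contra hcon
    push Not at hcon
    exact hq ((hPx q).mpr hcon)
  refine ⟨x (ρ b₀ p) / x (ρ b₀ q), (hPx _).mpr fun b => ?_⟩
  have h1 : ρ b p * ρ b₀ q = ρ b₀ p * ρ b q := by
    apply mul_right_cancel₀ hq0
    have e1 := hinv b
    have e2 := hinv b₀
    linear_combination (ρ b₀ q) * e1 - (ρ b q) * e2
  have h2 := congrArg x h1
  rw [map_mul, map_mul] at h2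
  rw [map_sub, map_smul, map_sub, map_smul, smul_eq_mul, sub_eq_zero, div_mul_eq_mul_div,
    eq_div_iff hb₀]
  exact h2

theorem CX_key (x : R →ₐ[ℂ] ℂ) (P : Ideal R) (hPx : ∀ r, r ∈ P ↔ ∀ b, x (ρ b r) = 0)
    {z : FractionRing R} (hz : CX_O P z) (hinv : ∀ b, CX_σ ρ b z = z) :
    ∃ c : ℂ, CX_m P (z - algebraMap ℂ (FractionRing R) c) := by
  obtain ⟨a, b, hb, e⟩ := hz
  have hb0 : b ≠ 0 := by
    rintro rfl
    exact hb P.zero_mem
  have hb' : algebraMap R (FractionRing R) b ≠ 0 := by
    rw [Ne, FaithfulSMul.algebraMap_eq_zero_iff]; exact hb0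
  have hz' : z = algebraMap R (FractionRing R) a / algebraMap R (FractionRing R) b := by
    rw [eq_div_iff hb', e]
  rw [hz'] at hinv
  obtain ⟨c, hc⟩ := CX_const ρ x P hPx ((CX_inv_iff ρ hb0).mp hinv) hb
  refine ⟨c, a - c • b, b, hc, hb, ?_⟩
  rw [map_sub, ← e, Algebra.smul_def, map_mul, ← IsScalarTower.algebraMap_apply]
  ring

theorem CX_indep (x : R →ₐ[ℂ] ℂ) (P : Ideal R) (hP : P.IsPrime)
    (hPx : ∀ r, r ∈ P ↔ ∀ b, x (ρ b r) = 0)
    (hval : ∀ a b : R, ∃ c s : R, s ∉ P ∧ (a * c = s * b ∨ b * c = s * a)) {s : ℕ}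
    (u : Fin s → R) (hu : AlgebraicIndependent ℂ (fun i => Ideal.Quotient.mk P (u i)))
    (A₀ : Subalgebra ℂ (FractionRing R)) (hA₀ : ∀ z ∈ A₀, ∀ b, CX_σ ρ b z = z) :
    AlgebraicIndependent A₀ (fun i => algebraMap R (FractionRing R) (u i)) := by
  classical
  rw [algebraicIndependent_iff]
  intro f hf
  by_contra hf0
  obtain ⟨α₀, hα₀, hmin⟩ := CX_min hP hval f.support (support_nonempty.mpr hf0)
    (fun α => ((coeff α f : A₀) : FractionRing R)) (by
      intro α hα h
      exact mem_support_iff.mp hα (Subtype.ext h))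
  have ht0 : ((coeff α₀ f : A₀) : FractionRing R) ≠ 0 := by
    intro h
    exact mem_support_iff.mp hα₀ (Subtype.ext h)
  have hc : ∀ α, ∃ c : ℂ, α ∈ f.support → CX_m P
      (((coeff α f : A₀) : FractionRing R) / ((coeff α₀ f : A₀) : FractionRing R) -
        algebraMap ℂ (FractionRing R) c) := by
    intro α
    by_cases hα : α ∈ f.support
    · obtain ⟨c, hc⟩ := CX_key ρ x P hPx (hmin α hα) (by
        intro b
        rw [map_div₀, hA₀ _ (coeff α f).2, hA₀ _ (coeff α₀ f).2])
      exact ⟨c, fun _ => hc⟩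
    · exact ⟨0, fun h => absurd h hα⟩
  choose c hc using hc
  -- the relation
  have h1 : ∑ α ∈ f.support, ((coeff α f : A₀) : FractionRing R) *
      algebraMap R (FractionRing R) (∏ i, u i ^ α i) = 0 := by
    rw [aeval_def, eval₂_eq'] at hf
    rw [← hf]
    refine Finset.sum_congr rfl fun α _ => ?_
    rw [map_prod]
    simp only [map_pow]
    rfl
  have h2 : ∑ α ∈ f.support, ((coeff α f : A₀) : FractionRing R) /
      ((coeff α₀ f : A₀) : FractionRing R) *
      algebraMap R (FractionRing R) (∏ i, u i ^ α i) = 0 := by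
    have : ∑ α ∈ f.support, ((coeff α f : A₀) : FractionRing R) /
        ((coeff α₀ f : A₀) : FractionRing R) *
        algebraMap R (FractionRing R) (∏ i, u i ^ α i) =
        (∑ α ∈ f.support, ((coeff α f : A₀) : FractionRing R) *
        algebraMap R (FractionRing R) (∏ i, u i ^ α i)) /
        ((coeff α₀ f : A₀) : FractionRing R) := by
      rw [Finset.sum_div]
      refine Finset.sum_congr rfl fun α _ => ?_
      ring
    rw [this, h1, zero_div]
  set g : MvPolynomial (Fin s) ℂ := ∑ α ∈ f.support, monomial α (c α) with hg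
  have h3 : aeval u g = ∑ α ∈ f.support, c α • ∏ i, u i ^ α i := by
    rw [hg, map_sum]
    refine Finset.sum_congr rfl fun α _ => ?_
    rw [aeval_monomial, Finsupp.prod_fintype _ _ (fun i => pow_zero _), Algebra.smul_def]
  have h4 : aeval u g ∈ P := by
    apply CX_m_alg hP
    have h5 : algebraMap R (FractionRing R) (aeval u g) =
        ∑ α ∈ f.support, (-(((coeff α f : A₀) : FractionRing R) /
          ((coeff α₀ f : A₀) : FractionRing R) - algebraMap ℂ (FractionRing R) (c α))) *
          algebraMap R (FractionRing R) (∏ i, u i ^ α i) := by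
      have h6 : ∀ α ∈ f.support, (-(((coeff α f : A₀) : FractionRing R) /
          ((coeff α₀ f : A₀) : FractionRing R) - algebraMap ℂ (FractionRing R) (c α))) *
          algebraMap R (FractionRing R) (∏ i, u i ^ α i) =
          algebraMap R (FractionRing R) (c α • ∏ i, u i ^ α i) -
          ((coeff α f : A₀) : FractionRing R) / ((coeff α₀ f : A₀) : FractionRing R) *
          algebraMap R (FractionRing R) (∏ i, u i ^ α i) := by
        intro α _
        rw [Algebra.smul_def, map_mul, ← IsScalarTower.algebraMap_apply]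
        ring
      rw [Finset.sum_congr rfl h6, Finset.sum_sub_distrib, h2, sub_zero, h3, map_sum]
    rw [h5]
    apply CX_m_sum hP
    intro α hα
    exact CX_m_mul (CX_m_neg (hc α hα)) _
  have h5 : aeval (fun i => Ideal.Quotient.mk P (u i)) g = 0 := by
    have h6 := comp_aeval_apply u (Ideal.Quotient.mkₐ ℂ P) g
    have h7 : Ideal.Quotient.mkₐ ℂ P (aeval u g) = 0 := Ideal.Quotient.eq_zero_iff_mem.mpr h4
    rw [h7] at h6
    exact h6.symm
  have h6 := (algebraicIndependent_iff.mp hu) g h5
  have h7 : coeff α₀ g = c α₀ := by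
    rw [hg, coeff_sum]
    simp only [coeff_monomial]
    rw [Finset.sum_ite_eq' f.support α₀, if_pos hα₀]
  rw [h6, coeff_zero] at h7
  have h8 := hc α₀ hα₀
  rw [← h7, map_zero, sub_zero, div_self ht0] at h8
  have h9 : (1 : R) ∈ P := CX_m_alg hP (by rw [map_one]; exact h8)
  exact hP.ne_top ((Ideal.eq_top_iff_one P).mpr h9)

end act

section final

variable {R : Type} [CommRing R] [IsDomain R] [Algebra ℂ R]

theorem CX_algebraic {s : ℕ} (g : MvPolynomial (Fin s) ℂ →ₐ[ℂ] R) (hint : g.IsIntegral)
    (z : FractionRing R) :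
    IsAlgebraic (Algebra.adjoin ℂ (Set.range fun j =>
      algebraMap R (FractionRing R) (g (X j)))) z := by
  set S := Algebra.adjoin ℂ (Set.range fun j =>
      algebraMap R (FractionRing R) (g (X j))) with hS
  have hmem : ∀ a : MvPolynomial (Fin s) ℂ, algebraMap R (FractionRing R) (g a) ∈ S := by
    intro a
    induction a using MvPolynomial.induction_on with
    | C a =>
      have h1 : g (C a) = algebraMap ℂ R a := g.commutes a
      rw [h1, ← IsScalarTower.algebraMap_apply]
      exact S.algebraMap_mem a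
    | add p q hp hq => rw [map_add, map_add]; exact S.add_mem hp hq
    | mul_X p i hp =>
      rw [map_mul, map_mul]
      exact S.mul_mem hp (Algebra.subset_adjoin ⟨i, rfl⟩)
  let φ : MvPolynomial (Fin s) ℂ →+* S :=
    ((algebraMap R (FractionRing R)).comp g.toRingHom).codRestrict S.toSubring hmem
  have hR : ∀ r : R, IsAlgebraic S (algebraMap R (FractionRing R) r) := by
    intro r
    obtain ⟨p, hp, hp0⟩ := hint r
    have : IsIntegral S (algebraMap R (FractionRing R) r) := by
      refine ⟨p.map φ, hp.map φ, ?_⟩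
      rw [Polynomial.eval₂_map]
      have e2 : (algebraMap S (FractionRing R)).comp φ =
        (algebraMap R (FractionRing R)).comp g.toRingHom := rfl
      rw [e2, ← Polynomial.hom_eval₂]
      have : Polynomial.eval₂ g.toRingHom r p = 0 := hp0
      rw [this, map_zero]
    exact this.isAlgebraic
  obtain ⟨a, b, hb, rfl⟩ := IsFractionRing.div_surjective (A := R) z
  rw [div_eq_mul_inv]
  exact (hR a).mul (hR b).inv

end final

theorem st_CX : ST_CX := by
  classical
  intro B _ H hH hI R _ _ _ _ _ ρ hrat x P hPx hdim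
  -- `P` is prime
  have hφ : ∀ r : R, (fun b => x (ρ b r)) ∈ H := by
    intro r
    obtain ⟨W, hr, -, -, h⟩ := hrat r
    exact h r hr x.toLinearMap
  have hP : P.IsPrime := by
    refine ⟨?_, ?_⟩
    · intro h
      have h1 : (1 : R) ∈ P := (Ideal.eq_top_iff_one P).mp h
      have h2 := (hPx 1).mp h1 1
      rw [map_one, map_one] at h2
      exact one_ne_zero h2
    · intro r s hrs
      have h1 : (fun b => x (ρ b r)) * (fun b => x (ρ b s)) = 0 := by
        funext b
        have := (hPx (r * s)).mp hrs b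
        rw [map_mul, map_mul] at this
        exact this
      rcases hI _ (hφ r) _ (hφ s) h1 with h | h
      · left
        exact (hPx r).mpr fun b => congrFun h b
      · right
        exact (hPx s).mpr fun b => congrFun h b
  have hval := CX_val P hdim
  intro p q p' q' h h'
  by_contra hdep
  set z : Fin 2 → FractionRing R :=
    ![algebraMap R (FractionRing R) p / algebraMap R (FractionRing R) q,
      algebraMap R (FractionRing R) p' / algebraMap R (FractionRing R) q'] with hz
  have hzi : AlgebraicIndependent ℂ z := by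
    rw [algebraicIndependent_iff]
    intro f hf
    by_contra hf0
    exact hdep ⟨f, hf0, hf⟩
  have hzinv : ∀ i b, CX_σ ρ b (z i) = z i := by
    intro i b
    refine Fin.cases ?_ (fun i => ?_) i
    · exact (CX_inv_iff ρ h.1).mpr h b
    · refine Fin.cases ?_ (fun i => i.elim0) i
      exact (CX_inv_iff ρ h'.1).mpr h' b
  obtain ⟨s, g, hg, hint⟩ := exists_integral_inj_algHom_of_fg ℂ (R ⧸ P)
  have h0 : ringKrullDim (R ⧸ P) = s :=
    Pool.Agent.Helper87.KrullDim.ringKrullDim_of_noether g hg hint
  obtain ⟨s', g', hg', hint'⟩ := exists_integral_inj_algHom_of_fg ℂ R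
  have h0' : ringKrullDim R = s' :=
    Pool.Agent.Helper87.KrullDim.ringKrullDim_of_noether g' hg' hint'
  have hle : s' ≤ s + 1 := by
    rw [h0, h0'] at hdim
    have h4 : (((s' : ℕ) : ℕ∞) : WithBot ℕ∞) ≤ (((s + 1 : ℕ) : ℕ∞) : WithBot ℕ∞) := by
      push_cast
      exact hdim
    exact_mod_cast h4
  have hu : ∀ i : Fin s, ∃ u : R, Ideal.Quotient.mk P u = g (X i) :=
    fun i => Ideal.Quotient.mk_surjective _
  choose u hu using hu
  have hui : AlgebraicIndependent ℂ (fun i => Ideal.Quotient.mk P (u i)) := by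
    have h1 : (fun i => Ideal.Quotient.mk P (u i)) = fun i => g (X i) := funext hu
    rw [h1]
    have h2 : (aeval (fun i => g (X i)) : MvPolynomial (Fin s) ℂ →ₐ[ℂ] (R ⧸ P)) = g := by
      apply MvPolynomial.algHom_ext
      intro i
      rw [aeval_X]
    unfold AlgebraicIndependent
    rw [h2]
    exact hg
  have hA : ∀ y ∈ Algebra.adjoin ℂ (Set.range z), ∀ b, CX_σ ρ b y = y := by
    intro y hy b
    induction hy using Algebra.adjoin_induction with
    | mem y hy =>
      obtain ⟨i, rfl⟩ := hy
      exact hzinv i b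
    | algebraMap r => exact (CX_σ ρ b).commutes r
    | add y y' _ _ h h' => rw [map_add, h, h']
    | mul y y' _ _ h h' => rw [map_mul, h, h']
  have hind := CX_indep ρ x P hP hPx hval u hui _ hA
  have hsum := hzi.sumElim hind
  have hfin : AlgebraicIndependent ℂ
      ((Sum.elim (fun i => algebraMap R (FractionRing R) (u i)) z) ∘
        (finSumFinEquiv (m := s) (n := 2)).symm) :=
    hsum.comp _ (finSumFinEquiv (m := s) (n := 2)).symm.injective
  have hcard := Pool.Agent.Helper87.KrullDim.card_le_of_algebraic _ hfin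
    (Set.range fun j => algebraMap R (FractionRing R) (g' (X j))) s' (by
      rw [← Set.image_univ]
      refine (Set.encard_image_le _ _).trans ?_
      rw [Set.encard_univ]
      simp) (fun i => CX_algebraic g' hint' _)
  omega

end Pool.Agent.Helper43.RS
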