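import Pool.Agent.Helper43.RS.Spec

/-! # Module FC -/

set_option autoImplicit false

namespace Pool.Agent.Helper43.RS

open MvPolynomial MeasureTheory Metric

section deriv

variable {N : ℕ}

/-- derivative of a polynomial function -/
noncomputable def FC_D (p : MvPolynomial (Fin N) ℝ) (x : Fin N → ℝ) : (Fin N → ℝ) →L[ℝ] ℝ :=
  ∑ j, (eval x (pderiv j p)) • ContinuousLinearMap.proj (R := ℝ) (φ := fun _ : Fin N => ℝ) j

theorem FC_D_apply (p : MvPolynomial (Fin N) ℝ) (x y : Fin N → ℝ) :
    FC_D p x y = ∑ j, eval x (pderiv j p) * y j := by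
  unfold FC_D
  rw [ContinuousLinearMap.sum_apply]
  rfl

theorem FC_D_single (p : MvPolynomial (Fin N) ℝ) (x : Fin N → ℝ) (i : Fin N) :
    FC_D p x (Pi.single i 1) = eval x (pderiv i p) := by
  classical
  rw [FC_D_apply, Finset.sum_eq_single i]
  · rw [Pi.single_eq_same, mul_one]
  · intro j _ hj
    rw [Pi.single_eq_of_ne hj, mul_zero]
  · intro h
    exact absurd (Finset.mem_univ i) h

theorem FC_hasFDerivAt (p : MvPolynomial (Fin N) ℝ) (x : Fin N → ℝ) :
    HasFDerivAt (fun y => eval y p) (FC_D p x) x := by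
  classical
  induction p using MvPolynomial.induction_on with
  | C a =>
    have h1 : FC_D (C a) x = 0 := by
      ext1 y
      rw [FC_D_apply]
      simp
    rw [h1]
    have h2 : (fun y : Fin N → ℝ => eval y (C a : MvPolynomial (Fin N) ℝ)) = fun _ => a := by
      funext y
      simp
    rw [h2]
    exact hasFDerivAt_const a x
  | add p q hp hq =>
    have h1 : FC_D (p + q) x = FC_D p x + FC_D q x := by
      ext1 y
      rw [ContinuousLinearMap.add_apply, FC_D_apply, FC_D_apply, FC_D_apply,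
        ← Finset.sum_add_distrib]
      refine Finset.sum_congr rfl fun j _ => ?_
      rw [map_add, map_add]
      ring
    rw [h1]
    have h2 : (fun y : Fin N → ℝ => eval y (p + q)) = fun y => eval y p + eval y q := by
      funext y
      simp
    rw [h2]
    exact hp.add hq
  | mul_X p i hp =>
    have h2 : (fun y : Fin N → ℝ => eval y (p * X i)) = fun y => eval y p * y i := by
      funext y
      simp
    rw [h2]
    have h3 : HasFDerivAt (fun y : Fin N → ℝ => y i)
        (ContinuousLinearMap.proj (R := ℝ) (φ := fun _ : Fin N => ℝ) i) x :=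
      hasFDerivAt_apply i x
    have h4 := hp.mul h3
    have h1 : FC_D (p * X i) x = eval x p •
        ContinuousLinearMap.proj (R := ℝ) (φ := fun _ : Fin N => ℝ) i + x i • FC_D p x := by
      ext1 y
      rw [ContinuousLinearMap.add_apply, ContinuousLinearMap.smul_apply,
        ContinuousLinearMap.smul_apply, FC_D_apply, FC_D_apply]
      have h5 : ∀ j, eval x (pderiv j (p * X i)) * y j =
          x i * (eval x (pderiv j p) * y j) + eval x p * (if i = j then y j else 0) := by
        intro j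
        rw [pderiv_mul, pderiv_X, map_add, map_mul, map_mul, eval_X]
        by_cases hij : i = j
        · subst hij
          simp
          ring
        · simp [hij]
          ring
      rw [Finset.sum_congr rfl fun j _ => h5 j, Finset.sum_add_distrib, ← Finset.mul_sum,
        ← Finset.mul_sum, Finset.sum_ite_eq, if_pos (Finset.mem_univ i)]
      simp only [smul_eq_mul, ContinuousLinearMap.proj_apply]
      ring
    rw [h1]
    exact h4

theorem FC_continuous (p : MvPolynomial (Fin N) ℝ) : Continuous (fun y : Fin N → ℝ => eval y p) :=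
  continuous_iff_continuousAt.mpr fun x => (FC_hasFDerivAt p x).continuousAt

/-- regular values of the gradient in every ball -/
theorem FC_sard (G : MvPolynomial (Fin N) ℝ) (η : ℝ) (hη : 0 < η) :
    ∃ a : Fin N → ℝ, (∀ j, |a j| < η) ∧ ∀ x, (∀ j, eval x (pderiv j G) + a j = 0) →
      (Matrix.of fun j i => eval x (pderiv i (pderiv j G))).det ≠ 0 := by
  classical
  set F : (Fin N → ℝ) → (Fin N → ℝ) := fun x j => eval x (pderiv j G) with hF
  set F' : (Fin N → ℝ) → ((Fin N → ℝ) →L[ℝ] (Fin N → ℝ)) :=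
    fun x => ContinuousLinearMap.pi fun j => FC_D (pderiv j G) x with hF'
  have hd : ∀ x, HasFDerivAt F (F' x) x := by
    intro x
    rw [hasFDerivAt_pi]
    intro j
    exact FC_hasFDerivAt (pderiv j G) x
  have hdet : ∀ x, (F' x).det = (Matrix.of fun j i => eval x (pderiv i (pderiv j G))).det := by
    intro x
    change LinearMap.det ((F' x : (Fin N → ℝ) →L[ℝ] (Fin N → ℝ)) :
      (Fin N → ℝ) →ₗ[ℝ] (Fin N → ℝ)) = _
    rw [← LinearMap.det_toMatrix']
    congr 1
    ext j i
    rw [LinearMap.toMatrix'_apply, Matrix.of_apply]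
    have h2 : (F' x) (Pi.single i 1) j = FC_D (pderiv j G) x (Pi.single i 1) := rfl
    rw [← FC_D_single (pderiv j G) x i, ← h2]
    rfl
  have hnull : volume (F '' {x | (F' x).det = 0}) = 0 :=
    addHaar_image_eq_zero_of_det_fderivWithin_eq_zero (μ := volume) (s := {x | (F' x).det = 0})
      (fun x _ => (hd x).hasFDerivWithinAt) (fun x hx => hx)
  obtain ⟨b, hb1, hb2⟩ : ∃ b ∈ ball (0 : Fin N → ℝ) η, b ∉ F '' {x | (F' x).det = 0} := by
    by_contra hcon
    push Not at hcon
    have h1 : volume (ball (0 : Fin N → ℝ) η) ≤ volume (F '' {x | (F' x).det = 0}) :=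
      measure_mono hcon
    rw [hnull] at h1
    exact absurd (measure_ball_pos volume (0 : Fin N → ℝ) hη) (not_lt.mpr h1)
  refine ⟨fun j => -b j, ?_, ?_⟩
  · intro j
    rw [abs_neg]
    have h1 : ‖b‖ < η := by simpa using hb1
    exact (norm_le_pi_norm b j).trans_lt h1
  · intro x hx h0
    apply hb2
    refine ⟨x, ?_, ?_⟩
    · change (F' x).det = 0
      rw [hdet, h0]
    · funext j
      have := hx j
      change eval x (pderiv j G) = b j
      linarith

end deriv

theorem FC_lb (k : ℕ) (d : Fin k → ℝ) (hd : ∀ i, 0 < d i) : ∃ e : ℝ, 0 < e ∧ ∀ i, e ≤ d i := by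
  rcases isEmpty_or_nonempty (Fin k) with h | h
  · exact ⟨1, one_pos, fun i => isEmptyElim i⟩
  · obtain ⟨i, -, hi⟩ := Finset.exists_min_image Finset.univ d Finset.univ_nonempty
    exact ⟨d i, hd i, fun j => hi j (Finset.mem_univ j)⟩

theorem FC_ub (k : ℕ) (d : Fin k → ℝ) : ∃ e : ℝ, 0 ≤ e ∧ ∀ i, d i ≤ e := by
  rcases isEmpty_or_nonempty (Fin k) with h | h
  · exact ⟨0, le_rfl, fun i => isEmptyElim i⟩
  · obtain ⟨i, -, hi⟩ := Finset.exists_max_image Finset.univ d Finset.univ_nonempty
    exact ⟨max 0 (d i), le_max_left _ _, fun j => (hi j (Finset.mem_univ j)).trans (le_max_right _ _)⟩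

/-- the square of the Euclidean norm -/
noncomputable def FC_q (N : ℕ) : MvPolynomial (Fin N) ℝ := ∑ j, X j ^ 2

theorem FC_q_eval (N : ℕ) (x : Fin N → ℝ) : eval x (FC_q N) = ∑ j, x j ^ 2 := by
  unfold FC_q
  rw [map_sum]
  simp

theorem FC_q_nonneg (N : ℕ) (x : Fin N → ℝ) : 0 ≤ eval x (FC_q N) := by
  rw [FC_q_eval]
  exact Finset.sum_nonneg fun j _ => sq_nonneg _

theorem FC_coord (N : ℕ) (x : Fin N → ℝ) (M : ℝ) (hM : 1 ≤ M) (h : eval x (FC_q N) ≤ M)
    (j : Fin N) : |x j| ≤ M := by
  rw [FC_q_eval] at h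
  have h1 : x j ^ 2 ≤ M := (Finset.single_le_sum (fun i _ => sq_nonneg (x i))
    (Finset.mem_univ j)).trans h
  have h2 : x j ^ 2 ≤ M ^ 2 := by nlinarith
  exact abs_le_of_sq_le_sq h2 (by linarith)

theorem FC_ball_compact (N : ℕ) (M : ℝ) (hM : 1 ≤ M) :
    IsCompact {x : Fin N → ℝ | eval x (FC_q N) ≤ M} := by
  apply Metric.isCompact_of_isClosed_isBounded
  · exact isClosed_le (FC_continuous _) continuous_const
  · rw [isBounded_iff_forall_norm_le]
    refine ⟨M, fun x hx => ?_⟩
    rw [pi_norm_le_iff_of_nonneg (by linarith)]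
    intro j
    exact FC_coord N x M hM hx j

/-- the perturbed function -/
noncomputable def FC_H {N : ℕ} (f : MvPolynomial (Fin N) ℝ) (T : ℝ) (a : Fin N → ℝ) :
    MvPolynomial (Fin N) ℝ :=
  FC_q N + C T * f + ∑ j, C (a j) * X j

theorem FC_H_eval {N : ℕ} (f : MvPolynomial (Fin N) ℝ) (T : ℝ) (a x : Fin N → ℝ) :
    eval x (FC_H f T a) = eval x (FC_q N) + T * eval x f + ∑ j, a j * x j := by
  unfold FC_H
  rw [map_add, map_add, map_mul, eval_C, map_sum]
  congr 1
  refine Finset.sum_congr rfl fun j _ => ?_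
  rw [map_mul, eval_C, eval_X]

theorem FC_H_pderiv {N : ℕ} (f : MvPolynomial (Fin N) ℝ) (T : ℝ) (a : Fin N → ℝ) (i : Fin N) :
    pderiv i (FC_H f T a) = pderiv i (FC_q N) + C T * pderiv i f + C (a i) := by
  classical
  unfold FC_H
  rw [map_add, map_add, pderiv_C_mul, map_sum]
  congr 1
  rw [Finset.sum_eq_single i]
  · rw [pderiv_C_mul, pderiv_X_self, mul_one]
  · intro j _ hj
    rw [pderiv_C_mul, pderiv_X_of_ne hj, mul_zero]
  · intro h
    exact absurd (Finset.mem_univ i) h

theorem FC_lin {N : ℕ} {R' : ℝ} (hR' : 1 ≤ R') (a x : Fin N → ℝ)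
    (ha : ∀ j, |a j| < 1 / (8 * (N + 1) * R')) (hx : eval x (FC_q N) ≤ R') :
    |∑ j, a j * x j| ≤ 1 / 8 := by
  have hN : (0 : ℝ) ≤ N := Nat.cast_nonneg N
  have h1 : ∀ j ∈ (Finset.univ : Finset (Fin N)), |a j * x j| ≤ 1 / (8 * (N + 1)) := by
    intro j _
    rw [abs_mul]
    have h2 := FC_coord N x R' hR' hx j
    have h3 : |a j| * |x j| ≤ 1 / (8 * (N + 1) * R') * R' :=
      mul_le_mul (ha j).le h2 (abs_nonneg _) (by positivity)
    refine h3.trans (le_of_eq ?_)
    field_simp
  refine (Finset.abs_sum_le_sum_abs _ _).trans ((Finset.sum_le_sum h1).trans ?_)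
  rw [Finset.sum_const, Finset.card_univ, Fintype.card_fin, nsmul_eq_mul]
  rw [mul_one_div, div_le_div_iff₀ (by positivity) (by norm_num)]
  linarith

theorem st_FC (hBEZ : ST_BEZ) : ST_FC := by
  classical
  intro N f hf
  obtain ⟨d, hd⟩ : ∃ d, d = ∑ j : Fin N, ((pderiv j (FC_q N)).totalDegree +
    (pderiv j f).totalDegree) := ⟨_, rfl⟩
  refine ⟨(d + 1) ^ N, ?_⟩
  intro k V hne hdisj hopen hclosed
  obtain ⟨Z, hZ⟩ : ∃ Z : Set (Fin N → ℝ), Z = {x | eval x f = 0} := ⟨_, rfl⟩
  rw [← hZ] at hopen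
  have hZc : IsClosed Z := by
    rw [hZ]
    exact isClosed_eq (FC_continuous f) continuous_const
  have hVZ : ∀ i, V i ⊆ Z := by
    intro i
    obtain ⟨U, -, h⟩ := hopen i
    rw [h]
    exact Set.inter_subset_right
  have hWc : ∀ i, IsClosed (Z \ V i) := by
    intro i
    obtain ⟨U, hU, h⟩ := hopen i
    have h1 : Z \ V i = Z ∩ Uᶜ := by
      rw [h]
      ext x
      simp only [Set.mem_diff, Set.mem_inter_iff, Set.mem_compl_iff]
      tauto
    rw [h1]
    exact hZc.inter hU.isClosed_compl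
  choose p hp using hne
  obtain ⟨R0, hR0, hR⟩ := FC_ub k (fun i => eval (p i) (FC_q N))
  obtain ⟨R', hR'⟩ : ∃ R', R' = R0 + 1 := ⟨_, rfl⟩
  have hR1 : 1 ≤ R' := by linarith
  obtain ⟨Bq, hBq⟩ : ∃ Bq : Set (Fin N → ℝ), Bq = {x | eval x (FC_q N) ≤ R'} := ⟨_, rfl⟩
  have hBm : ∀ x, x ∈ Bq ↔ eval x (FC_q N) ≤ R' := by
    intro x
    rw [hBq]
    rfl
  have hB : IsCompact Bq := by
    rw [hBq]
    exact FC_ball_compact N R' hR1
  have hsep : ∀ i, ∃ δ, 0 < δ ∧ Disjoint (cthickening δ (V i ∩ Bq))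
      (cthickening δ ((Z \ V i) ∩ Bq)) := by
    intro i
    apply Disjoint.exists_cthickenings
    · rw [Set.disjoint_left]
      rintro x ⟨hx, -⟩ ⟨⟨-, hx'⟩, -⟩
      exact hx' hx
    · exact hB.inter_left (hclosed i)
    · exact (hWc i).inter hB.isClosed
  choose δ' hδ' hsep using hsep
  obtain ⟨δ, hδ, hδle⟩ := FC_lb k δ' hδ'
  have hNc : ∀ i, IsCompact (cthickening δ (V i ∩ Bq) ∩ Bq) :=
    fun i => hB.inter_left isClosed_cthickening
  have hε : ∀ i, ∃ ε, 0 < ε ∧ ∀ x ∈ cthickening δ (V i ∩ Bq) ∩ Bq,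
      x ∉ thickening δ (V i ∩ Bq) → ε ≤ eval x f := by
    intro i
    have hKc : IsCompact ((cthickening δ (V i ∩ Bq) ∩ Bq) \ thickening δ (V i ∩ Bq)) :=
      (hNc i).diff isOpen_thickening
    rcases Set.eq_empty_or_nonempty
      ((cthickening δ (V i ∩ Bq) ∩ Bq) \ thickening δ (V i ∩ Bq)) with he | hne
    · refine ⟨1, one_pos, fun x hx hx' => ?_⟩
      have : x ∈ ((cthickening δ (V i ∩ Bq) ∩ Bq) \ thickening δ (V i ∩ Bq)) := ⟨hx, hx'⟩
      rw [he] at this
      exact absurd this (Set.notMem_empty x)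
    · obtain ⟨x0, hx0, hmin⟩ := hKc.exists_isMinOn hne (FC_continuous f).continuousOn
      refine ⟨eval x0 f, ?_, fun x hx hx' => hmin ⟨hx, hx'⟩⟩
      rcases (hf x0).lt_or_eq with h | h
      · exact h
      · exfalso
        have hxZ : x0 ∈ Z := by
          rw [hZ]
          exact h.symm
        by_cases hxV : x0 ∈ V i
        · exact hx0.2 (self_subset_thickening hδ _ ⟨hxV, hx0.1.2⟩)
        · have h1 : x0 ∈ cthickening (δ' i) (V i ∩ Bq) := cthickening_mono (hδle i) _ hx0.1.1
          have h2 : x0 ∈ cthickening (δ' i) ((Z \ V i) ∩ Bq) :=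
            self_subset_cthickening _ ⟨⟨hxZ, hxV⟩, hx0.1.2⟩
          exact Set.disjoint_left.mp (hsep i) h1 h2
  choose ε' hε' hfε using hε
  obtain ⟨ε, hε, hεle⟩ := FC_lb k ε' hε'
  obtain ⟨T, hT⟩ : ∃ T, T = R' / ε := ⟨_, rfl⟩
  have hTpos : 0 < T := by
    rw [hT]
    exact div_pos (by linarith) hε
  have hTε : T * ε = R' := by
    rw [hT]
    field_simp
  obtain ⟨a, ha, hreg⟩ := FC_sard (FC_q N + C T * f) (1 / (8 * (N + 1) * R'))
    (by positivity)
  have hgrad : ∀ j, pderiv j (FC_H f T a) = pderiv j (FC_q N + C T * f) + C (a j) := by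
    intro j
    rw [FC_H_pderiv, map_add, pderiv_C_mul]
  have hpV : ∀ i, p i ∈ V i ∩ Bq := by
    intro i
    refine ⟨hp i, (hBm _).mpr ?_⟩
    have := hR i
    linarith
  have hc : ∀ i, ∃ c ∈ thickening δ (V i ∩ Bq),
      ∀ j, eval c (pderiv j (FC_H f T a)) = 0 := by
    intro i
    obtain ⟨c, hc, hmin⟩ := (hNc i).exists_isMinOn
      ⟨p i, self_subset_cthickening _ (hpV i), (hpV i).2⟩
      (FC_continuous (FC_H f T a)).continuousOn
    have hcB : eval c (FC_q N) ≤ R' := (hBm c).mp hc.2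
    have hle : eval c (FC_H f T a) ≤ R0 + 1 / 8 := by
      have h1 : eval c (FC_H f T a) ≤ eval (p i) (FC_H f T a) :=
        hmin ⟨self_subset_cthickening _ (hpV i), (hpV i).2⟩
      have h2 : eval (p i) f = 0 := by
        have := hVZ i (hp i)
        rw [hZ] at this
        exact this
      rw [FC_H_eval f T a (p i), h2, mul_zero, add_zero] at h1
      have h3 := FC_lin hR1 a (p i) ha ((hBm _).mp (hpV i).2)
      have h4 := (abs_le.mp h3).2
      have h5 := hR i
      linarith
    rw [FC_H_eval] at hle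
    have hl := (abs_le.mp (FC_lin hR1 a c ha hcB)).1
    have hq := FC_q_nonneg N c
    have hf0 : 0 ≤ T * eval c f := mul_nonneg hTpos.le (hf c)
    have hin : c ∈ thickening δ (V i ∩ Bq) := by
      by_contra hcon
      have h1 := hfε i c hc hcon
      have h2 : R' ≤ T * eval c f := by
        rw [← hTε]
        exact mul_le_mul_of_nonneg_left ((hεle i).trans h1) hTpos.le
      linarith
    have hlt : eval c (FC_q N) < R' := by
      by_contra hcon
      linarith
    refine ⟨c, hin, ?_⟩
    have hnhds : cthickening δ (V i ∩ Bq) ∩ Bq ∈ nhds c := by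
      have hO : IsOpen (thickening δ (V i ∩ Bq) ∩ {x | eval x (FC_q N) < R'}) :=
        isOpen_thickening.inter (isOpen_lt (FC_continuous _) continuous_const)
      refine Filter.mem_of_superset (hO.mem_nhds ⟨hin, hlt⟩) ?_
      rintro x ⟨hx1, hx2⟩
      exact ⟨thickening_subset_cthickening _ _ hx1, (hBm x).mpr (le_of_lt hx2)⟩
    have hlm := hmin.isLocalMin hnhds
    have h0 := hlm.hasFDerivAt_eq_zero (FC_hasFDerivAt (FC_H f T a) c)
    intro j
    rw [← FC_D_single, h0]
    rfl
  choose c hc1 hc2 using hc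
  have hcinj : Function.Injective c := by
    intro i j hij
    by_contra hne
    have h1 : c i ∈ cthickening (δ' i) (V i ∩ Bq) :=
      cthickening_mono (hδle i) _ (thickening_subset_cthickening _ _ (hc1 i))
    have h2 : c j ∈ cthickening (δ' i) ((Z \ V i) ∩ Bq) := by
      apply cthickening_mono (hδle i) _
      apply thickening_subset_cthickening
      refine thickening_subset_of_subset _ ?_ (hc1 j)
      rintro x ⟨hx1, hx2⟩
      exact ⟨⟨hVZ j hx1, fun hx3 => Set.disjoint_left.mp (hdisj i j hne) hx3 hx1⟩, hx2⟩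
    rw [hij] at h1
    exact Set.disjoint_left.mp (hsep i) h1 h2
  have hcard : (Finset.univ.image c).card = k := by
    rw [Finset.card_image_of_injective _ hcinj, Finset.card_univ, Fintype.card_fin]
  have key := hBEZ N d (fun j => pderiv j (FC_q N + C T * f) + C (a j)) (by
    intro j
    have h1 : (pderiv j (FC_q N)).totalDegree + (pderiv j f).totalDegree ≤ d := by
      rw [hd]
      exact Finset.single_le_sum (f := fun j : Fin N => (pderiv j (FC_q N)).totalDegree +
        (pderiv j f).totalDegree) (fun _ _ => Nat.zero_le _) (Finset.mem_univ j)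
    have h2 : pderiv j (FC_q N + C T * f) = pderiv j (FC_q N) + C T * pderiv j f := by
      rw [map_add, pderiv_C_mul]
    rw [h2]
    refine (totalDegree_add _ _).trans (max_le ((totalDegree_add _ _).trans (max_le ?_ ?_)) ?_)
    · omega
    · have h3 := totalDegree_mul (C T : MvPolynomial (Fin N) ℝ) (pderiv j f)
      rw [totalDegree_C] at h3
      omega
    · rw [totalDegree_C]
      exact Nat.zero_le _) (Finset.univ.image c) (by
    intro x hx
    obtain ⟨i, -, rfl⟩ := Finset.mem_image.mp hx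
    have h1 : ∀ j, eval (c i) (pderiv j (FC_q N + C T * f) + C (a j)) = 0 := by
      intro j
      rw [← hgrad]
      exact hc2 i j
    refine ⟨h1, ?_⟩
    have h2 := hreg (c i) (by
      intro j
      have := h1 j
      rwa [map_add, eval_C] at this)
    have h3 : (Matrix.of fun j i_1 => eval (c i) (pderiv i_1
        (pderiv j (FC_q N + C T * f) + C (a j)))) =
        Matrix.of fun j i_1 => eval (c i) (pderiv i_1 (pderiv j (FC_q N + C T * f))) := by
      ext j i_1
      rw [Matrix.of_apply, Matrix.of_apply, map_add (pderiv i_1), pderiv_C, add_zero]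
    rw [h3]
    exact h2)
  rw [hcard] at key
  exact key

end Pool.Agent.Helper43.RS
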